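import Pool.Agent.U180.NG.Stm

/-!
# Project NG, package CNT: the count is a finite sum, the displacements are bounded
-/

set_option autoImplicit false

open MeasureTheory ProbabilityTheory Filter Topology
open Pool.Agent.U180.NG

namespace Pool.Agent.U668.NG

theorem measurableSet_disc (R : ℝ) (z : ℤ × ℤ) : MeasurableSet (disc R z) := by
  unfold disc
  exact measurableSet_le (by fun_prop) (by fun_prop)

/-- The law of a displacement lives on a bounded set. -/
theorem noise_bound (δ ρ : ℝ) (μ : Measure (ℝ × ℝ)) [IsProbabilityMeasure μ] (h1 : δ ≤ 1)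
    (hs : ∀ᵐ y ∂μ, |y.1| ≤ ρ ∧ |y.2| ≤ ρ) :
    ∀ᵐ x ∂(noiseLaw δ μ), |x.1| ≤ 1 + ρ ∧ |x.2| ≤ ρ := by
  unfold noiseLaw
  have hm : Measurable (fun p : ℝ × (ℝ × ℝ) => (p.1 + p.2.1, p.2.2)) := by fun_prop
  have hset : MeasurableSet {x : ℝ × ℝ | |x.1| ≤ 1 + ρ ∧ |x.2| ≤ ρ} :=
    (measurableSet_le (measurable_fst.abs) measurable_const).inter
      (measurableSet_le (measurable_snd.abs) measurable_const)
  rw [ae_map_iff hm.aemeasurable hset]
  have hA : ∀ᵐ t ∂(((ENNReal.ofReal δ)⁻¹ • volume.restrict (Set.Icc 0 δ)) : Measure ℝ),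
      t ∈ Set.Icc (0 : ℝ) δ :=
    Measure.ae_smul_measure (ae_restrict_mem measurableSet_Icc) _
  have hB := (Measure.quasiMeasurePreserving_fst
    (μ := (((ENNReal.ofReal δ)⁻¹ • volume.restrict (Set.Icc 0 δ)) : Measure ℝ)) (ν := μ)).ae hA
  have hC := (Measure.quasiMeasurePreserving_snd
    (μ := (((ENNReal.ofReal δ)⁻¹ • volume.restrict (Set.Icc 0 δ)) : Measure ℝ)) (ν := μ)).ae hs
  filter_upwards [hB, hC] with p hp hq
  obtain ⟨hp0, hp1⟩ := hp
  obtain ⟨hq1, hq2⟩ := hq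
  refine ⟨?_, hq2⟩
  have h3 : |p.1| ≤ 1 := by
    rw [abs_of_nonneg hp0]
    exact hp1.trans h1
  exact (abs_add_le _ _).trans (add_le_add h3 hq1)

theorem tri (a b x y : ℝ) :
    Real.sqrt ((a + x) ^ 2 + (b + y) ^ 2) ≤ Real.sqrt (a ^ 2 + b ^ 2) + (|x| + |y|) := by
  have h := norm_add_le (⟨a, b⟩ : ℂ) ⟨x, y⟩
  rw [Complex.norm_eq_sqrt_sq_add_sq, Complex.norm_eq_sqrt_sq_add_sq,
    Complex.norm_eq_sqrt_sq_add_sq] at h
  simp only [Complex.add_re, Complex.add_im] at h
  refine h.trans (by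
    gcongr
    rw [Real.sqrt_le_left (by positivity)]
    nlinarith [abs_nonneg x, abs_nonneg y, sq_abs x, sq_abs y,
      mul_nonneg (abs_nonneg x) (abs_nonneg y)])

/-- **Package CNT.** -/
theorem t_CNT (_h : S_PZ) : S_CNT := by
  classical
  intro Ω _ P hP δ ρ μ ξ hξ
  have hμ := hξ.prob
  have hρ : 0 ≤ ρ := by
    obtain ⟨y, hy, _⟩ := hξ.supp.exists
    exact (abs_nonneg _).trans hy
  refine ⟨hρ, ?_, ?_, ?_, ?_⟩
  · intro R z
    exact (measurable_const.indicator (measurableSet_disc R z)).comp (hξ.meas z)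
  · intro R
    exact hξ.indep.comp (fun z => (disc R z).indicator (fun _ => (1 : ℝ)))
      (fun z => measurable_const.indicator (measurableSet_disc R z))
  · intro R z
    have hd := measurableSet_disc R z
    rw [← hξ.law z]
    have h1 : ∫ ω, ind ξ R z ω ∂P = ∫ x, (disc R z).indicator (fun _ => (1 : ℝ)) x
        ∂(P.map (ξ z)) := by
      rw [integral_map (hξ.meas z).aemeasurable
        (measurable_const.indicator hd).aestronglyMeasurable]
      rfl
    rw [h1, integral_indicator_const _ hd, smul_eq_mul, mul_one]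
  · have hb : ∀ᵐ ω ∂P, ∀ z, |(ξ z ω).1| ≤ 1 + ρ ∧ |(ξ z ω).2| ≤ ρ := by
      rw [ae_all_iff]
      intro z
      have h2 := noise_bound δ ρ μ hξ.le_one hξ.supp
      rw [← hξ.law z] at h2
      exact ae_of_ae_map (hξ.meas z).aemeasurable h2
    filter_upwards [hb] with ω hω
    have hsum : ∀ z, |(ξ z ω).1| + |(ξ z ω).2| ≤ 2 * ρ + 1 := fun z => by
      have := hω z
      linarith [this.1, this.2]
    refine ⟨?_, ?_⟩
    · intro R B hR hB
      have hsub : ∀ z : ℤ × ℤ, ((z.1 : ℝ) + (ξ z ω).1) ^ 2 + ((z.2 : ℝ) + (ξ z ω).2) ^ 2 ≤ R ^ 2 →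
          z ∈ box B := by
        intro z hz
        obtain ⟨hx, hy⟩ := hω z
        have h1 : |(z.1 : ℝ) + (ξ z ω).1| ≤ R := abs_le_of_sq_le_sq (by nlinarith) hR
        have h2 : |(z.2 : ℝ) + (ξ z ω).2| ≤ R := abs_le_of_sq_le_sq (by nlinarith) hR
        rw [abs_le] at h1 h2 hx hy
        unfold box
        rw [Finset.mem_product, Finset.mem_Icc, Finset.mem_Icc]
        refine ⟨⟨?_, ?_⟩, ⟨?_, ?_⟩⟩
        · have : (-(B : ℝ)) ≤ (z.1 : ℝ) := by linarith [h1.1, hx.2]
          exact_mod_cast this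
        · have : (z.1 : ℝ) ≤ (B : ℝ) := by linarith [h1.2, hx.1]
          exact_mod_cast this
        · have : (-(B : ℝ)) ≤ (z.2 : ℝ) := by linarith [h2.1, hy.2]
          exact_mod_cast this
        · have : (z.2 : ℝ) ≤ (B : ℝ) := by linarith [h2.2, hy.1]
          exact_mod_cast this
      have heq : {z : ℤ × ℤ | ((z.1 : ℝ) + (ξ z ω).1) ^ 2 + ((z.2 : ℝ) + (ξ z ω).2) ^ 2 ≤ R ^ 2} =
          ((box B).filter fun z => ξ z ω ∈ disc R z : Finset (ℤ × ℤ)) := by
        ext z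
        simp only [Finset.coe_filter]
        exact ⟨fun hz => ⟨hsub z hz, hz⟩, fun hz => hz.2⟩
      refine ⟨?_, ?_⟩
      · rw [heq]
        exact Finset.finite_toSet _
      · unfold count
        rw [heq, Set.ncard_coe_finset, ← Finset.sum_boole]
        refine Finset.sum_congr rfl fun z _ => ?_
        unfold ind
        rw [Set.indicator_apply]
    · intro R z hR
      refine ⟨fun hz => ?_, fun hz => ?_⟩
      · have h3 : ξ z ω ∈ disc R z := by
          show ((z.1 : ℝ) + (ξ z ω).1) ^ 2 + ((z.2 : ℝ) + (ξ z ω).2) ^ 2 ≤ R ^ 2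
          rw [← Real.sqrt_le_left hR]
          have h4 := tri z.1 z.2 (ξ z ω).1 (ξ z ω).2
          linarith [hsum z]
        unfold ind
        rw [Set.indicator_of_mem h3]
      · have h3 : ξ z ω ∉ disc R z := by
          intro h5
          have h5' : ((z.1 : ℝ) + (ξ z ω).1) ^ 2 + ((z.2 : ℝ) + (ξ z ω).2) ^ 2 ≤ R ^ 2 := h5
          rw [← Real.sqrt_le_left hR] at h5'
          have h4 := tri ((z.1 : ℝ) + (ξ z ω).1) ((z.2 : ℝ) + (ξ z ω).2) (-(ξ z ω).1) (-(ξ z ω).2)
          rw [add_neg_cancel_right, add_neg_cancel_right, abs_neg, abs_neg] at h4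
          linarith [hsum z]
        unfold ind
        rw [Set.indicator_of_notMem h3]

end Pool.Agent.U668.NG
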